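import Pool.Agent.Helper58.DG.Goals

/-!
# Project DG (MP_06d934_gt): packet K_SUM (the signed count near a Kähler solution of the three block problem)
-/

set_option autoImplicit false

namespace Pool.Agent.Helper33.DG

open Pool.Agent.Helper83.EIN Pool.Agent.Helper58.DG Topology Finset

/-- The Jacobian determinant from the directional derivatives. -/
theorem jac_of_lines {m : ℕ} {f : (Fin m → ℝ) → Fin m → ℝ} {x : Fin m → ℝ}
    (A : Matrix (Fin m) (Fin m) ℝ) (hf : DifferentiableAt ℝ f x)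
    (h : ∀ v : Fin m → ℝ, ∀ i, deriv (fun s : ℝ ↦ f (x + s • v) i) 0 = (A.mulVec v) i) :
    jac f x = A.det := by
  have key : ∀ v, fderiv ℝ f x v = A.mulVec v := by
    intro v
    have h4 : HasDerivAt (fun s : ℝ ↦ x + s • v) v 0 := by
      have := ((hasDerivAt_id (0 : ℝ)).smul_const v).const_add x
      simpa using this
    have h5 : HasFDerivAt f (fderiv ℝ f x) (x + (0 : ℝ) • v) := by
      rw [zero_smul, add_zero]
      exact hf.hasFDerivAt
    have h6 := h5.comp_hasDerivAt (0 : ℝ) h4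
    rw [hasDerivAt_pi] at h6
    funext i
    have h7 := (h6 i).deriv
    rw [← h v i]
    exact h7.symm
  have h8 : ((fderiv ℝ f x : (Fin m → ℝ) →L[ℝ] (Fin m → ℝ)) : (Fin m → ℝ) →ₗ[ℝ] (Fin m → ℝ)) =
      Matrix.toLin' A := by
    apply LinearMap.ext
    intro v
    rw [Matrix.toLin'_apply]
    exact key v
  unfold jac ContinuousLinearMap.det
  rw [h8, LinearMap.det_toLin']

/-- The Jacobian matrix at the limit zeros. -/
noncomputable def AK (w : ℝ) : Matrix (Fin 6) (Fin 6) ℝ :=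
  !![16 / 9, 0, 0, 0, 0, 0; 0, 16 / 9, 0, 0, 0, 0;
    -(160 / 81) * (1 - w ^ 2), -(160 / 81) * (1 - w ^ 2), -16 / 27, 256 / 243 * w, 0, 0;
    (1 - w ^ 2) * (80 * w + 8) / 81, (1 - w ^ 2) * (16 * w + 24) / 81, 0,
      32 / 81 * ((1 - w ^ 2) * (2 / 3) - 2 * w * (2 * w + 1) / 3), -8 / 27, 0;
    (1 - w ^ 2) * (48 * w - 8) / 81, (1 - w ^ 2) * (176 * w - 24) / 81, 0,
      32 / 81 * ((1 - w ^ 2) * (2 / 3) - 2 * w * (2 * w - 1) / 3), 8 / 27, 0;
    0, 0, 0, 0, 0, 8 / 9]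

theorem det_AK (w : ℝ) : (AK w).det =
    -(16 / 9) ^ 2 * (16 / 27) * (8 / 9) * ((256 / 2187) * ((4 / 3) * (1 - w ^ 2) - 8 / 3 * w ^ 2)) := by
  unfold AK
  simp [Matrix.det_succ_row_zero, Fin.sum_univ_succ, Fin.succAbove]
  ring

theorem diff_FK (a b c t : ℝ) : Differentiable ℝ (FK a b c t) := by
  have h : ContDiff ℝ 1 (FK a b c t) := (FK_cd a b c).comp (contDiff_prodMk_right t)
  exact h.differentiable one_ne_zero

/-- The limit determinant. -/
theorem jac_FK_zero (w : ℝ) :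
    jac (FK (1 / 3) (1 / 3) (1 / 3) 0) (zK (1 / 3) (1 / 3) (1 / 3) w) =
      -(16 / 9) ^ 2 * (16 / 27) * (8 / 9) * ((256 / 2187) * ((4 / 3) * (1 - w ^ 2) - 8 / 3 * w ^ 2)) := by
  rw [← det_AK]
  refine jac_of_lines (AK w) (diff_FK _ _ _ _ _) fun v i ↦ ?_
  obtain ⟨f0, f1, f2, f3, f4, f5⟩ := (⟨fun u ↦ (FK_zero (1 / 3) (1 / 3) (1 / 3) u).1,
    fun u ↦ (FK_zero (1 / 3) (1 / 3) (1 / 3) u).2.1, fun u ↦ (FK_zero (1 / 3) (1 / 3) (1 / 3) u).2.2.1,
    fun u ↦ (FK_zero (1 / 3) (1 / 3) (1 / 3) u).2.2.2.1,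
    fun u ↦ (FK_zero (1 / 3) (1 / 3) (1 / 3) u).2.2.2.2.1,
    fun u ↦ (FK_zero (1 / 3) (1 / 3) (1 / 3) u).2.2.2.2.2⟩ : (∀ u, _) ∧ (∀ u, _) ∧ (∀ u, _) ∧
      (∀ u, _) ∧ (∀ u, _) ∧ (∀ u, _))
  have hk : kap (1 / 3) (1 / 3) (1 / 3) w = -(8 / 9) * (1 - w ^ 2) := by
    unfold kap
    ring
  have hm : muu (1 / 3) (1 / 3) (1 / 3) w = 4 / 9 * (1 - w ^ 2) * (2 * w + 1) := by
    unfold muu
    rw [hk]
    ring
  fin_cases i
  · simp only [Fin.zero_eta, f0]
    simp only [Pi.add_apply, Pi.smul_apply, smul_eq_mul, zK, Matrix.cons_val]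
    simp (disch := fun_prop) only [deriv_fun_add, deriv_fun_sub, deriv_fun_mul, deriv_fun_pow,
      deriv_const, deriv_id'']
    simp [AK, Matrix.mulVec, dotProduct, Fin.sum_univ_succ, -mul_eq_mul_right_iff, -mul_eq_mul_left_iff]
    ring
  · simp only [Fin.mk_one, f1]
    simp only [Pi.add_apply, Pi.smul_apply, smul_eq_mul, zK, Matrix.cons_val]
    simp (disch := fun_prop) only [deriv_fun_add, deriv_fun_sub, deriv_fun_mul, deriv_fun_pow,
      deriv_const, deriv_id'']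
    simp [AK, Matrix.mulVec, dotProduct, Fin.sum_univ_succ, -mul_eq_mul_right_iff, -mul_eq_mul_left_iff]
    ring
  · simp only [Fin.reduceFinMk, f2]
    simp only [Pi.add_apply, Pi.smul_apply, smul_eq_mul, zK, Matrix.cons_val, hk, hm]
    simp (disch := fun_prop) only [deriv_fun_add, deriv_fun_sub, deriv_fun_mul, deriv_fun_pow,
      deriv_const, deriv_id'']
    simp [AK, Matrix.mulVec, dotProduct, Fin.sum_univ_succ, -mul_eq_mul_right_iff, -mul_eq_mul_left_iff]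
    ring
  · simp only [Fin.reduceFinMk, f3]
    simp only [Pi.add_apply, Pi.smul_apply, smul_eq_mul, zK, Matrix.cons_val, hk, hm]
    simp (disch := fun_prop) only [deriv_fun_add, deriv_fun_sub, deriv_fun_mul, deriv_fun_pow,
      deriv_const, deriv_id'']
    simp [AK, Matrix.mulVec, dotProduct, Fin.sum_univ_succ, -mul_eq_mul_right_iff, -mul_eq_mul_left_iff]
    ring
  · simp only [Fin.reduceFinMk, f4]
    simp only [Pi.add_apply, Pi.smul_apply, smul_eq_mul, zK, Matrix.cons_val, hk, hm]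
    simp (disch := fun_prop) only [deriv_fun_add, deriv_fun_sub, deriv_fun_mul, deriv_fun_pow,
      deriv_const, deriv_id'']
    simp [AK, Matrix.mulVec, dotProduct, Fin.sum_univ_succ, -mul_eq_mul_right_iff, -mul_eq_mul_left_iff]
    ring
  · simp only [Fin.reduceFinMk, f5]
    simp only [Pi.add_apply, Pi.smul_apply, smul_eq_mul, zK, Matrix.cons_val, hk, hm]
    simp (disch := fun_prop) only [deriv_fun_add, deriv_fun_sub, deriv_fun_mul, deriv_fun_pow,
      deriv_const, deriv_id'']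
    simp [AK, Matrix.mulVec, dotProduct, Fin.sum_univ_succ, -mul_eq_mul_right_iff, -mul_eq_mul_left_iff]
    ring

theorem jac_psK (t : ℝ) (u : Fin 6 → ℝ) : jac (psK t) u = t ^ 8 * u 0 := by
  have hd : ContDiff ℝ 1 (psK t) := by
    unfold psK
    rw [contDiff_pi]
    intro i
    fin_cases i <;> simp <;> fun_prop
  rw [jac_of_lines (!![t, 0, 0, 0, 0, 0; t, t, t ^ 2, 0, 0, 0; 0, t, 0, 0, 0, 0;
    t * u 3, 0, 0, t * u 0, 0, t; 0, 0, 0, 0, 0, t; 0, -(t * u 3), 0, -(t * u 1), t ^ 2, t])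
    (hd.differentiable one_ne_zero _)]
  · simp [Matrix.det_succ_row_zero, Fin.sum_univ_succ, Fin.succAbove]
    ring
  · intro v i
    fin_cases i <;> simp only [psK, Fin.zero_eta, Fin.mk_one, Fin.reduceFinMk, Matrix.cons_val,
        Pi.add_apply, Pi.smul_apply, smul_eq_mul] <;>
      simp (disch := fun_prop) only [deriv_fun_add, deriv_fun_sub, deriv_fun_mul, deriv_fun_pow,
        deriv_const, deriv_id''] <;>
      simp [Matrix.mulVec, dotProduct, Fin.sum_univ_succ] <;> ring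

theorem sg_rel {x y D E : ℝ} (hD : 0 < D) (hE : 0 < E) (h : D * x = -(E * y)) : sg x = -sg y := by
  unfold sg
  have h1 : SignType.sign x = -SignType.sign y := by
    have h2 : SignType.sign (D * x) = SignType.sign (-(E * y)) := by rw [h]
    rwa [sign_mul, sign_pos hD, one_mul, Left.sign_neg, sign_mul, sign_pos hE, one_mul] at h2
  rw [h1]
  simp

/-- The sign of the Jacobian determinant in the chart. -/
theorem sg_K (h2 : C_TRF) {a b c t : ℝ} (habc : a + b + c = 1) (ht : 0 < t) {u : Fin 6 → ℝ}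
    (p : ∀ i, 0 < psK t u i) (h0 : FK a b c t u = 0) (hA : FA a b c t (psK t u) = 0) :
    (jac (FK a b c t) u ≠ 0 → jac (FA a b c t) (psK t u) ≠ 0) ∧
      sg (jac (FA a b c t) (psK t u)) = -sg (jac (FK a b c t) u) := by
  have hd : ContDiff ℝ 1 (psK t) := by
    unfold psK
    rw [contDiff_pi]
    intro i
    fin_cases i <;> simp <;> fun_prop
  have hFA : ContDiff ℝ 1 (FA a b c t) := (FA_cd a b c).comp (contDiff_prodMk_right t)
  have hFK : ContDiff ℝ 1 (FK a b c t) := (FK_cd a b c).comp (contDiff_prodMk_right t)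
  have key := h2 6 (FA a b c t) (psK t) (FK a b c t)
    (fun y ↦ Matrix.diagonal ![1, (1 + t * y 5) * (y 0 + y 1 + t * y 2), 1,
      (1 + t * (y 5 + y 3 * y 0)) * y 1, 1, (1 + t * (y 5 - (y 3 * y 1 - t * y 4))) * y 0])
    (fun y ↦ !![t ^ 3, 0, 0, 0, 0, 0;
      t ^ 3 * ((1 + t * (y 5 - (y 3 * y 1 - t * y 4))) * y 0),
        t ^ 3 * ((1 + t * (y 5 + y 3 * y 0)) * y 1), t ^ 4, 0, 0, 0;
      0, t ^ 3, 0, 0, 0, 0;
      t ^ 3 * y 3 * (1 + t * (y 5 - (y 3 * y 1 - t * y 4))) * y 0, 0, 0, t ^ 4, 0,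
        (y 0 + y 1 + t * y 2) * (1 + t * y 5) * t ^ 3;
      0, 0, 0, 0, 0, t ^ 3;
      0, -(t ^ 3 * (y 3 * y 1 - t * y 4) * (1 + t * (y 5 + y 3 * y 0))), 0, 0, -t ^ 4,
        (y 0 + y 1 + t * y 2) * (1 + t * y 5) * t ^ 3])
    u hFA hd hFK ?_ ?_ ?_ h0 hA
  · rw [Matrix.det_diagonal, jac_psK] at key
    have hM : (!![t ^ 3, 0, 0, 0, 0, 0;
      t ^ 3 * ((1 + t * (u 5 - (u 3 * u 1 - t * u 4))) * u 0),
        t ^ 3 * ((1 + t * (u 5 + u 3 * u 0)) * u 1), t ^ 4, 0, 0, 0;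
      0, t ^ 3, 0, 0, 0, 0;
      t ^ 3 * u 3 * (1 + t * (u 5 - (u 3 * u 1 - t * u 4))) * u 0, 0, 0, t ^ 4, 0,
        (u 0 + u 1 + t * u 2) * (1 + t * u 5) * t ^ 3;
      0, 0, 0, 0, 0, t ^ 3;
      0, -(t ^ 3 * (u 3 * u 1 - t * u 4) * (1 + t * (u 5 + u 3 * u 0))), 0, 0, -t ^ 4,
        (u 0 + u 1 + t * u 2) * (1 + t * u 5) * t ^ 3]).det = -t ^ 21 := by
      simp [Matrix.det_succ_row_zero, Fin.sum_univ_succ, Fin.succAbove]
      ring
    rw [hM] at key
    have p0 := p 0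
    have p1 := p 1
    have p2 := p 2
    have p3 := p 3
    have p4 := p 4
    have p5 := p 5
    simp only [psK, Matrix.cons_val] at p0 p1 p2 p3 p4 p5
    have q0 : 0 < u 0 := (mul_pos_iff_of_pos_left ht).1 p0
    have q1 : 0 < u 0 + u 1 + t * u 2 := (mul_pos_iff_of_pos_left ht).1 p1
    have q2 : 0 < u 1 := (mul_pos_iff_of_pos_left ht).1 p2
    have hD : 0 < ((1 + t * u 5) * (u 0 + u 1 + t * u 2) * ((1 + t * (u 5 + u 3 * u 0)) * u 1) *
        ((1 + t * (u 5 - (u 3 * u 1 - t * u 4))) * u 0)) * (t ^ 8 * u 0) := by positivity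
    have hE : 0 < t ^ 21 := by positivity
    have h3 : (((1 + t * u 5) * (u 0 + u 1 + t * u 2) * ((1 + t * (u 5 + u 3 * u 0)) * u 1) *
        ((1 + t * (u 5 - (u 3 * u 1 - t * u 4))) * u 0)) * (t ^ 8 * u 0)) *
          jac (FA a b c t) (psK t u) = -(t ^ 21 * jac (FK a b c t) u) := by
      simp [Fin.prod_univ_succ] at key
      linear_combination key
    refine ⟨fun hne h4 ↦ ?_, sg_rel hD hE h3⟩
    rw [h4, mul_zero] at h3
    have : t ^ 21 * jac (FK a b c t) u = 0 := by linarith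
    rcases mul_eq_zero.1 this with h5 | h5
    · exact hE.ne' h5
    · exact hne h5
  · intro i j
    fin_cases i <;> fin_cases j <;> simp [Matrix.diagonal] <;> fun_prop
  · intro i j
    fin_cases i <;> fin_cases j <;> simp <;> fun_prop
  · intro y
    obtain ⟨k0, k2, k4, k1, k3, k5⟩ := FA_psK (t := t) habc y
    funext i
    rw [Matrix.mulVec_diagonal]
    fin_cases i
    · simp [Matrix.mulVec, dotProduct, Fin.sum_univ_succ]
      linear_combination k0
    · simp [Matrix.mulVec, dotProduct, Fin.sum_univ_succ]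
      linear_combination k1
    · simp [Matrix.mulVec, dotProduct, Fin.sum_univ_succ]
      linear_combination k2
    · simp [Matrix.mulVec, dotProduct, Fin.sum_univ_succ]
      linear_combination k3
    · simp [Matrix.mulVec, dotProduct, Fin.sum_univ_succ]
      linear_combination k4
    · simp [Matrix.mulVec, dotProduct, Fin.sum_univ_succ]
      linear_combination k5

theorem sg_of_pos {r : ℝ} (h : 0 < r) : sg r = 1 := by
  unfold sg
  rw [sign_pos h]
  rfl

theorem sg_of_neg {r : ℝ} (h : r < 0) : sg r = -1 := by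
  unfold sg
  rw [sign_neg h]
  rfl

/-- **K_SUM**. -/
theorem k_sum (hC : C_SGN) (hT : C_TRF) : K_SUM := by
  classical
  obtain ⟨r₀, hr₀, hr1, hr2, hr3, C1, C2, hC1, hC2, hbd⟩ :=
    boundsK ti (a := 1 / 3) (b := 1 / 3) (c := 1 / 3) (by norm_num) (by norm_num) (by norm_num)
      (by norm_num)
  have ha : (0 : ℝ) < 1 / 3 := by norm_num
  have habc : (1 : ℝ) / 3 + 1 / 3 + 1 / 3 = 1 := by norm_num
  have e23 : (1 : ℝ) / 3 + 1 / 3 = 2 / 3 := by norm_num
  refine ⟨r₀, hr₀, fun r hr hrr ↦ ?_⟩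
  have hmemZ : ∀ z ∈ ({zK (1 / 3) (1 / 3) (1 / 3) 1, zK (1 / 3) (1 / 3) (1 / 3) (-1),
      zK (1 / 3) (1 / 3) (1 / 3) 0} :
      Finset (Fin 6 → ℝ)), ∃ w, z = zK (1 / 3) (1 / 3) (1 / 3) w ∧ |w| ≤ 1 ∧
        (1 - w ^ 2) * (w * hh (1 / 3) (1 / 3) (1 / 3) + gg (1 / 3) (1 / 3) (1 / 3)) = 0 ∧
        jac (FK (1 / 3) (1 / 3) (1 / 3) 0) (zK (1 / 3) (1 / 3) (1 / 3) w) ≠ 0 := by
    intro z hz
    rw [mem_insert, mem_insert, mem_singleton] at hz
    rcases hz with rfl | rfl | rfl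
    · refine ⟨1, rfl, by simp, by ring, ?_⟩
      rw [jac_FK_zero]
      norm_num
    · refine ⟨-1, rfl, by simp, by ring, ?_⟩
      rw [jac_FK_zero]
      norm_num
    · refine ⟨0, rfl, by simp, ?_, ?_⟩
      · unfold gg
        norm_num
      · rw [jac_FK_zero]
        norm_num
  have hsum : ∑ z ∈ ({zK (1 / 3) (1 / 3) (1 / 3) 1, zK (1 / 3) (1 / 3) (1 / 3) (-1),
      zK (1 / 3) (1 / 3) (1 / 3) 0} : Finset (Fin 6 → ℝ)),
        sg (jac (FK (1 / 3) (1 / 3) (1 / 3) 0) z) = 1 := by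
    rw [sum_insert, sum_insert, sum_singleton, jac_FK_zero, jac_FK_zero, jac_FK_zero,
      sg_of_pos, sg_of_pos, sg_of_neg]
    · norm_num
    · norm_num
    · norm_num
    · norm_num
    · rw [mem_singleton]
      intro h
      have := congrFun h 3
      simp only [zK, Matrix.cons_val] at this
      norm_num at this
    · rw [mem_insert, mem_singleton]
      rintro (h | h)
      · have := congrFun h 3
        simp only [zK, Matrix.cons_val] at this
        norm_num at this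
      · have := congrFun h 3
        simp only [zK, Matrix.cons_val] at this
        norm_num at this
  -- the size of the limit zeros
  obtain ⟨M, hM, hMz⟩ : ∃ M : ℝ, 0 < M ∧ ∀ z ∈ ({zK (1 / 3) (1 / 3) (1 / 3) 1,
      zK (1 / 3) (1 / 3) (1 / 3) (-1), zK (1 / 3) (1 / 3) (1 / 3) 0} : Finset (Fin 6 → ℝ)),
        |z 2| < M ∧ |z 4| < M := by
    refine ⟨∑ z ∈ ({zK (1 / 3) (1 / 3) (1 / 3) 1, zK (1 / 3) (1 / 3) (1 / 3) (-1),
      zK (1 / 3) (1 / 3) (1 / 3) 0} : Finset (Fin 6 → ℝ)),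
      (|z 2| + |z 4|) + 1, ?_, fun z hz ↦ ?_⟩
    · have : 0 ≤ ∑ z ∈ ({zK (1 / 3) (1 / 3) (1 / 3) 1, zK (1 / 3) (1 / 3) (1 / 3) (-1),
        zK (1 / 3) (1 / 3) (1 / 3) 0} : Finset (Fin 6 → ℝ)),
        (|z 2| + |z 4|) := sum_nonneg fun z _ ↦ by positivity
      linarith
    · have h1 : |z 2| + |z 4| ≤ ∑ z ∈ ({zK (1 / 3) (1 / 3) (1 / 3) 1,
          zK (1 / 3) (1 / 3) (1 / 3) (-1), zK (1 / 3) (1 / 3) (1 / 3) 0} :
          Finset (Fin 6 → ℝ)), (|z 2| + |z 4|) :=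
        single_le_sum (f := fun z : Fin 6 → ℝ ↦ |z 2| + |z 4|) (fun z _ ↦ by positivity) hz
      have h2 := abs_nonneg (z 2)
      have h3 := abs_nonneg (z 4)
      constructor <;> linarith
  have hK : IsCompact (Set.Icc (![2 / 3 - r, 2 / 3 - r, -C1, -1, -C2, -1] : Fin 6 → ℝ)
      ![2 / 3 + r, 2 / 3 + r, C1, 1, C2, 1]) := isCompact_Icc
  suffices hcount : ∃ ε > 0, ∀ t, 0 < t → t < ε → ∃ Zt : Finset (Fin 6 → ℝ),
      (∀ u, u ∈ Zt ↔ u ∈ {u | 0 < u 0 ∧ Sol (1 / 3) (1 / 3) (1 / 3) t (psK t u) ∧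
        |psK t u 0 / t - 2 / 3| < r ∧
        |psK t u 1 / t - 4 / 3| < r ∧ |psK t u 2 / t - 2 / 3| < r}) ∧
      (∀ u ∈ Zt, jac (FK (1 / 3) (1 / 3) (1 / 3) t) u ≠ 0) ∧
      ∑ u ∈ Zt, sg (jac (FK (1 / 3) (1 / 3) (1 / 3) t) u) =
        ∑ z ∈ ({zK (1 / 3) (1 / 3) (1 / 3) 1, zK (1 / 3) (1 / 3) (1 / 3) (-1),
          zK (1 / 3) (1 / 3) (1 / 3) 0} : Finset (Fin 6 → ℝ)),
          sg (jac (FK (1 / 3) (1 / 3) (1 / 3) 0) z) by
    obtain ⟨ε, hε, hcount⟩ := hcount
    refine ⟨ε, hε, fun t ht0 htε ↦ ?_⟩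
    obtain ⟨Zt, m1, m2, m3⟩ := hcount t ht0 htε
    rw [hsum] at m3
    have hrel : ∀ u ∈ Zt, (jac (FK (1 / 3) (1 / 3) (1 / 3) t) u ≠ 0 →
        jac (FA (1 / 3) (1 / 3) (1 / 3) t) (psK t u) ≠ 0) ∧
        sg (jac (FA (1 / 3) (1 / 3) (1 / 3) t) (psK t u)) =
          -sg (jac (FK (1 / 3) (1 / 3) (1 / 3) t) u) := by
      intro u hu
      obtain ⟨-, hS, -⟩ := (m1 u).1 hu
      exact sg_K hT habc ht0 hS.pos ((sol_iff_FK habc ht0 hS.pos).1 hS)
        ((sol_iff_FA hS.pos).1 hS)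
    refine ⟨Zt.image (psK t), ?_, ?_, ?_⟩
    · intro v
      rw [mem_image]
      constructor
      · rintro ⟨u, hu, rfl⟩
        exact ((m1 u).1 hu).2
      · intro hv
        have hv0 := hv.1.pos 0
        refine ⟨coK t v, (m1 _).2 ⟨?_, ?_⟩, psK_surj ht0 hv0.ne'⟩
        · show 0 < v 0 / t
          positivity
        · rw [psK_surj ht0 hv0.ne']
          exact hv
    · intro v hv
      obtain ⟨u, hu, rfl⟩ := mem_image.1 hv
      exact (hrel u hu).1 (m2 u hu)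
    · rw [sum_image]
      · rw [sum_congr rfl fun u hu ↦ (hrel u hu).2, sum_neg_distrib, m3]
      · intro u hu w hw h
        exact psK_inj ht0 ((m1 u).1 hu).1 ((m1 w).1 hw).1 h
  refine hC 6 (FK (1 / 3) (1 / 3) (1 / 3)) _ _
    (Set.pi Set.univ fun i ↦ Set.Ioo
      ((![2 / 3 - r / 4, 2 / 3 - r / 4, -M, -2, -M, -2] : Fin 6 → ℝ) i)
      ((![2 / 3 + r / 4, 2 / 3 + r / 4, M, 2, M, 2] : Fin 6 → ℝ) i)) _
    (min (1 / 20) (min (r / (4 * M)) (1 / M))) (FK_cd _ _ _) hK ?_ ?_ ?_ ?_ (by positivity) ?_ ?_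
  · intro u hu h0
    rw [Set.mem_Icc, Pi.le_def, Pi.le_def] at hu
    have l0 := hu.1 0
    have l1 := hu.1 1
    simp only [Matrix.cons_val] at l0 l1
    rw [e23] at hr2 hr3
    obtain ⟨h1, h2⟩ := FK_zero_only ha ha ha habc (u := u) (by linarith) (by linarith) h0
    rw [mem_insert, mem_insert, mem_singleton]
    rcases mul_eq_zero.1 h2 with h3 | h3
    · have h4 : (1 - u 3) * (1 + u 3) = 0 := by linear_combination h3
      rcases mul_eq_zero.1 h4 with h5 | h5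
      · left
        rw [h1]
        congr 1
        linarith
      · right
        left
        rw [h1]
        congr 1
        linarith
    · right
      right
      rw [h1]
      congr 1
      unfold gg hh at h3
      linarith
  · intro z hz
    obtain ⟨w, rfl, -, hw, -⟩ := hmemZ z hz
    exact FK_zK ha ha ha habc hw
  · intro z hz
    obtain ⟨w, rfl, -, -, hw⟩ := hmemZ z hz
    exact hw
  · intro z hz
    obtain ⟨m2, m4⟩ := hMz z hz
    obtain ⟨w, rfl, hw1, -, -⟩ := hmemZ z hz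
    rw [abs_lt] at m2 m4
    rw [abs_le] at hw1
    refine (isOpen_set_pi Set.finite_univ fun i _ ↦ isOpen_Ioo).mem_nhds ?_
    intro i _
    fin_cases i
    · simp only [zK]; constructor <;> simp <;> linarith
    · simp only [zK]; constructor <;> simp <;> linarith
    · exact m2
    · simp only [zK]; constructor <;> simp <;> linarith
    · exact m4
    · simp only [zK]; constructor <;> simp
  · rintro t ht ht2 u ⟨hu0, hS, g0, g1, g2⟩
    have ht4 : t < 1 / 4 := by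
      have := ht2.trans_le (min_le_left _ _)
      linarith
    have B := bd ti ha ha ha habc ht (by linarith) hS
    obtain ⟨x1, x2, x3, x4, x5, x6⟩ := locK ht hu0 B
    have ht' := ht.ne'
    have e0 : psK t u 0 / t = u 0 := by simp only [psK, Matrix.cons_val]; field_simp
    have e1 : psK t u 1 / t = u 0 + u 1 + t * u 2 := by
      simp only [psK, Matrix.cons_val]; field_simp
    have e2 : psK t u 2 / t = u 1 := by simp only [psK, Matrix.cons_val]; field_simp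
    rw [e0] at g0
    rw [e1] at g1
    rw [e2] at g2
    have g0' : |u 0 - (1 / 3 + 1 / 3)| < r := by rw [e23]; exact g0
    have g2' : |u 1 - (1 / 3 + 1 / 3)| < r := by rw [e23]; exact g2
    have g1' : |u 0 + u 1 + t * u 2 - (1 / 3 + 1 / 3 + (1 / 3 + 1 / 3))| < r := by
      rw [e23]
      have : (2 : ℝ) / 3 + 2 / 3 = 4 / 3 := by norm_num
      rw [this]
      exact g1
    obtain ⟨k1, k2⟩ := hbd t ht ht4 u hu0 hS (g0'.trans_le hrr) (g2'.trans_le hrr)
      (g1'.trans_le hrr)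
    rw [abs_le] at x1 x2 k1 k2
    rw [abs_lt] at g0 g2
    refine ⟨⟨?_, ?_⟩, (sol_iff_FK habc ht hS.pos).1 hS⟩
    · intro i
      fin_cases i <;> simp <;> linarith [x1.1, x2.1, k1.1, k2.1, g0.1, g2.1]
    · intro i
      fin_cases i <;> simp <;> linarith [x1.2, x2.2, k1.2, k2.2, g0.2, g2.2]
  · intro t ht ht2 u hu h0
    have s1 := ht2.trans_le (min_le_left _ _)
    have s2 := ht2.trans_le ((min_le_right _ _).trans (min_le_left _ _))
    have s3 := ht2.trans_le ((min_le_right _ _).trans (min_le_right _ _))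
    rw [e23] at hr2 hr3
    have s2' : t * M ≤ r / 4 := by
      rw [lt_div_iff₀ (by positivity)] at s2
      linarith
    have s3' : t * M ≤ 1 := by
      rw [lt_div_iff₀ hM] at s3
      exact s3.le
    obtain ⟨l0, m0⟩ := hu 0 trivial
    obtain ⟨l1, m1⟩ := hu 1 trivial
    obtain ⟨l2, m2⟩ := hu 2 trivial
    obtain ⟨l3, m3⟩ := hu 3 trivial
    obtain ⟨l4, m4⟩ := hu 4 trivial
    obtain ⟨l5, m5⟩ := hu 5 trivial
    simp only [Matrix.cons_val] at l0 l1 l2 l3 l4 l5 m0 m1 m2 m3 m4 m5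
    have q0 : 0 < u 0 := by linarith
    have q1 : 0 < u 1 := by linarith
    have q0' : u 0 < 2 := by linarith
    have q1' : u 1 < 2 := by linarith
    have k2 : |t * u 2| ≤ r / 4 := by
      rw [abs_mul, abs_of_pos ht]
      exact (mul_le_mul_of_nonneg_left (abs_le.2 ⟨l2.le, m2.le⟩) ht.le).trans s2'
    have k4 : |t * u 4| ≤ 1 := by
      rw [abs_mul, abs_of_pos ht]
      exact (mul_le_mul_of_nonneg_left (abs_le.2 ⟨l4.le, m4.le⟩) ht.le).trans s3'
    have n1 : |u 3 * u 0| ≤ 4 := by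
      rw [abs_mul, abs_of_pos q0]
      have : |u 3| ≤ 2 := abs_le.2 ⟨l3.le, m3.le⟩
      nlinarith [abs_nonneg (u 3)]
    have n2 : |u 3 * u 1| ≤ 4 := by
      rw [abs_mul, abs_of_pos q1]
      have : |u 3| ≤ 2 := abs_le.2 ⟨l3.le, m3.le⟩
      nlinarith [abs_nonneg (u 3)]
    rw [abs_le] at k2 k4 n1 n2
    have hU : 0 < u 0 + u 1 + t * u 2 := by linarith [k2.1]
    have hmul : ∀ x : ℝ, -10 < x → 0 < 1 + t * x := by
      intro x hx
      nlinarith
    have ht' := ht.ne'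
    have e0 : psK t u 0 / t = u 0 := by simp only [psK, Matrix.cons_val]; field_simp
    have e1 : psK t u 1 / t = u 0 + u 1 + t * u 2 := by
      simp only [psK, Matrix.cons_val]; field_simp
    have e2 : psK t u 2 / t = u 1 := by simp only [psK, Matrix.cons_val]; field_simp
    refine ⟨q0, (sol_iff_FK habc ht ?_).2 h0, ?_, ?_, ?_⟩
    · intro i
      fin_cases i
      · exact mul_pos ht q0
      · exact mul_pos ht hU
      · exact mul_pos ht q1
      · exact hmul _ (by linarith [n1.1])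
      · exact hmul _ (by linarith)
      · exact hmul _ (by linarith [n2.2, k4.1])
    · rw [e0, abs_lt]
      constructor <;> linarith
    · rw [e1, abs_lt]
      constructor <;> linarith [k2.1, k2.2]
    · rw [e2, abs_lt]
      constructor <;> linarith

end Pool.Agent.Helper33.DG
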